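import Pool.Agent.TotPar.Space
import Pool.Agent.TotPar.ForceCH

set_option autoImplicit false
set_option linter.all false

open Set Topology Cardinal

namespace Pool.Agent.TotPar

open Pool.Agent.TotPar.ForceCH (Om OmegaOnePreserved DiamondHolds)

/-- `C` is a closed unbounded subset of `ω₁` (the sentence named by `IsClubName`) -/
def IsClub (C : Om → Prop) : Prop :=
  (∀ a : Om, ∃ b : Om, a < b ∧ C b) ∧
    ∀ a : Om, (∃ b, b < a) → (∀ b : Om, b < a → ∃ c : Om, (b < c ∧ c < a) ∧ C c) → C a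

/-- diamond: the sentence which `DiamondHolds P` says is forced, evaluated in the universe -/
def Diamond : Prop :=
  ∃ A : Om → Om → Prop, ∀ S : Om → Prop, ∀ C : Om → Prop,
    IsClub C → ∃ a : Om, C a ∧ ∀ b : Om, b < a → (S b ↔ A a b)

theorem om_bdd (S : Set Om) (hS : S.Countable) : ∃ α, ∀ β ∈ S, β < α := by
  rcases S.eq_empty_or_nonempty with h | h
  · obtain ⟨e, _⟩ := ForceCH.exists_emb
    exact ⟨e 0, by simp [h]⟩
  · obtain ⟨f, hf⟩ := hS.exists_eq_range h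
    obtain ⟨a, ha⟩ := ForceCH.exists_bound f
    refine ⟨a, fun β hβ => ?_⟩
    rw [hf] at hβ
    obtain ⟨n, rfl⟩ := hβ
    exact ha n

theorem om_cnt (α : Om) : (Iio α).Countable := by
  have := ForceCH.countable_Iio α
  exact Set.countable_coe_iff.1 this

theorem om_cnt' (α : Om) : (Iic α).Countable :=
  ((om_cnt α).union (countable_singleton α)).mono (fun β hβ => by
    rcases (show β ≤ α from hβ).lt_or_eq with h | h
    · exact Or.inl h
    · exact Or.inr h)

theorem club_fun (G : Om → Om) (β0 : Om) :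
    IsClub (fun δ => β0 < δ ∧ ∀ α, α < δ → G α < δ) := by
  constructor
  · intro a
    have hnext : ∀ c : Om, ∃ d, c < d ∧ ∀ α, α ≤ c → G α < d := by
      intro c
      obtain ⟨d, hd⟩ := om_bdd ({c} ∪ G '' (Iic c))
        ((countable_singleton c).union ((om_cnt' c).image _))
      exact ⟨d, hd c (Or.inl rfl), fun α hα => hd _ (Or.inr ⟨α, hα, rfl⟩)⟩
    choose nx h1 h2 using hnext
    let s : ℕ → Om := fun n => Nat.rec (max a β0) (fun _ c => nx c) n
    refine ⟨ForceCH.ub s, ?_, ?_, ?_⟩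
    · exact lt_of_le_of_lt (le_max_left a β0) (ForceCH.lt_ub s 0)
    · exact lt_of_le_of_lt (le_max_right a β0) (ForceCH.lt_ub s 0)
    · intro α hα
      obtain ⟨n, hn⟩ := ForceCH.ub_le s hα
      exact (h2 (s n) α hn).trans (ForceCH.lt_ub s (n+1))
  · rintro a ⟨b, hb⟩ h
    obtain ⟨c, ⟨h1, h2⟩, h3, h4⟩ := h b hb
    refine ⟨h3.trans h2, fun α hα => ?_⟩
    obtain ⟨c', ⟨k1, k2⟩, k3, k4⟩ := h α hα
    exact (k4 α k1).trans k2

theorem surj_code (h : Diamond) : ∃ E : Om → Code, Function.Surjective E := by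
  classical
  obtain ⟨A, hA⟩ := h
  obtain ⟨e0, he0⟩ := ForceCH.exists_emb
  let I : Type := ℕ × ℕ × ℕ × ℕ
  let e : I → Om := fun i => e0 (Encodable.encode i)
  have he : Function.Injective e := he0.comp Encodable.encode_injective
  have h1 : Function.Surjective (fun (a : Om) (i : I) => A a (e i)) := by
    intro f
    obtain ⟨β0, hβ0⟩ := ForceCH.exists_bound e0
    obtain ⟨a, ⟨ha1, ha2⟩, hb⟩ := hA (fun b => ∃ i, e i = b ∧ f i) _ (club_fun id β0)
    refine ⟨a, funext fun i => propext ?_⟩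
    refine (hb (e i) ((hβ0 _).trans ha1)).symm.trans ⟨?_, fun h => ⟨i, rfl, h⟩⟩
    rintro ⟨j, hj, hf⟩
    rw [← he hj]
    exact hf
  let F : Code → (I → Prop) := fun c i => (c i.1).1 i.2.1 = i.2.2.1 ∧ (c i.1).2 = i.2.2.2
  have hF : Function.Injective F := by
    intro c c' hcc
    have key : ∀ k i, (c' k).1 i = (c k).1 i ∧ (c' k).2 = (c k).2 := by
      intro k i
      have h2 : F c (k, i, (c k).1 i, (c k).2) := ⟨rfl, rfl⟩
      rw [hcc] at h2
      exact h2
    funext k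
    refine Prod.ext (OrderHom.ext _ _ (funext fun i => ((key k i).1).symm)) ((key k 0).2).symm
  haveI : Nonempty Code := ⟨fun _ => (⊥, 0)⟩
  exact ⟨Function.invFun F ∘ (fun (a : Om) (i : I) => A a (e i)),
    (Function.invFun_surjective hF).comp h1⟩

theorem exists_pi : ∃ π : Om × ℕ × Om → Om, Function.Injective π := by
  have h1 : #Om = ℵ₁ := by simp [Om]
  have h2 : #(Om × ℕ × Om) ≤ #Om := by
    rw [Cardinal.mk_prod, Cardinal.mk_prod, Cardinal.lift_id, Cardinal.lift_id]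
    simp only [Cardinal.lift_id, h1, Cardinal.mk_nat]
    rw [Cardinal.mul_eq_right (a := ℵ₀) (b := ℵ₁) (Cardinal.aleph0_le_aleph 1)
      (Cardinal.aleph0_le_aleph 1) (Cardinal.aleph0_ne_zero), Cardinal.mul_eq_self (Cardinal.aleph0_le_aleph 1)]
  obtain ⟨f⟩ := h2
  exact ⟨f, f.injective⟩

theorem exists_guess (h : Diamond) : Nonempty (Guess Om) := by
  classical
  obtain ⟨E, hE⟩ := surj_code h
  obtain ⟨A, hA⟩ := h
  obtain ⟨π, hπ⟩ := exists_pi
  refine ⟨{
    cnt := om_cnt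
    bdd := om_bdd
    E := E
    surj := hE
    b := fun δ α n => if h : ∃ γ, γ < δ ∧ π (α, n, γ) < δ ∧ A δ (π (α, n, γ)) then
      E h.choose else (fun _ => (⊥, 0))
    guess := ?_ }⟩
  intro B G β0
  choose idx hidx using fun α n => hE (B α n)
  have hG' : ∀ c : Om, ∃ d, G c < d ∧ (∀ n, idx c n < d) ∧
      ∀ α, α ≤ c → ∀ γ, γ ≤ c → ∀ n, π (α, n, γ) < d := by
    intro c
    obtain ⟨d, hd⟩ := om_bdd ({G c} ∪ range (idx c) ∪
        π '' ((Iic c) ×ˢ ((univ : Set ℕ) ×ˢ (Iic c))))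
      (((countable_singleton _).union (countable_range _)).union
        (((om_cnt' c).prod ((countable_univ).prod (om_cnt' c))).image _))
    exact ⟨d, hd _ (Or.inl (Or.inl rfl)), fun n => hd _ (Or.inl (Or.inr ⟨n, rfl⟩)),
      fun α hα γ hγ n => hd _ (Or.inr ⟨(α, n, γ), ⟨hα, trivial, hγ⟩, rfl⟩)⟩
  choose G' g1 g2 g3 using hG'
  obtain ⟨δ, ⟨hδ0, hδ⟩, hb⟩ := hA (fun b => ∃ α n γ, π (α, n, γ) = b ∧ E γ = B α n) _
    (club_fun G' β0)
  refine ⟨δ, hδ0, fun α hα => (g1 α).trans (hδ α hα), fun α hα n => ?_⟩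
  have hex : ∃ γ, γ < δ ∧ π (α, n, γ) < δ ∧ A δ (π (α, n, γ)) := by
    have h1 : idx α n < δ := (g2 α n).trans (hδ α hα)
    have h2 : π (α, n, idx α n) < δ :=
      (g3 (max α (idx α n)) α (le_max_left _ _) _ (le_max_right _ _) n).trans
        (hδ _ (max_lt hα h1))
    exact ⟨idx α n, h1, h2, (hb _ h2).1 ⟨α, n, _, rfl, hidx α n⟩⟩
  show (if h : ∃ γ, γ < δ ∧ π (α, n, γ) < δ ∧ A δ (π (α, n, γ)) then
      E h.choose else (fun _ => (⊥, 0))) = B α n
  rw [dif_pos hex]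
  obtain ⟨k1, k2, k3⟩ := hex.choose_spec
  obtain ⟨α', n', γ', e1, e2⟩ := (hb _ k2).2 k3
  have h5 := hπ e1
  simp only [Prod.mk.injEq] at h5
  obtain ⟨rfl, rfl, h6⟩ := h5
  rw [← h6]
  exact e2

end Pool.Agent.TotPar
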