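import Mathlib

set_option autoImplicit false
set_option linter.all false

open Set Topology

namespace Pool.Agent.TotPar

/-- monotone sequences of natural numbers -/
abbrev T := ℕ →o ℕ

/-- the basic sets: same first `n` values, and pointwise above -/
def N (x : T) (n : ℕ) : Set T := {y | (∀ i < n, y i = x i) ∧ ∀ i, x i ≤ y i}

theorem self_mem (x : T) (n : ℕ) : x ∈ N x n := ⟨fun _ _ => rfl, fun _ => le_rfl⟩

theorem N_sub {x y : T} {n m : ℕ} (h : y ∈ N x n) (hm : n ≤ m) : N y m ⊆ N x n := by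
  intro w hw
  exact ⟨fun i hi => (hw.1 i (lt_of_lt_of_le hi hm)).trans (h.1 i hi),
    fun i => (h.2 i).trans (hw.2 i)⟩

theorem N_anti (x : T) {n m : ℕ} (hm : n ≤ m) : N x m ⊆ N x n := N_sub (self_mem x n) hm

theorem N_sep {x y : T} {n : ℕ} (h : y ∉ N x n) : ∃ k, ∀ w ∈ N y k, w ∉ N x n := by
  by_cases h1 : ∀ i < n, y i = x i
  · have h2 : ∃ i, ¬ x i ≤ y i := by
      by_contra h3
      push Not at h3
      exact h ⟨h1, fun i => h3 i⟩
    obtain ⟨i, hi⟩ := h2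
    refine ⟨i+1, fun w hw hx => hi ?_⟩
    have := hx.2 i
    rw [hw.1 i (Nat.lt_succ_self i)] at this
    exact this
  · push Not at h1
    obtain ⟨i, hi, hne⟩ := h1
    refine ⟨i+1, fun w hw hx => hne ?_⟩
    rw [← hw.1 i (Nat.lt_succ_self i), hx.1 i hi]

instance topT : TopologicalSpace T where
  IsOpen G := ∀ y ∈ G, ∃ n, N y n ⊆ G
  isOpen_univ := fun y _ => ⟨0, subset_univ _⟩
  isOpen_inter := fun s t hs ht y hy => by
    obtain ⟨n, hn⟩ := hs y hy.1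
    obtain ⟨m, hm⟩ := ht y hy.2
    exact ⟨max n m, subset_inter ((N_anti y (le_max_left _ _)).trans hn)
      ((N_anti y (le_max_right _ _)).trans hm)⟩
  isOpen_sUnion := fun S hS y hy => by
    obtain ⟨s, hs, hys⟩ := hy
    obtain ⟨n, hn⟩ := hS s hs y hys
    exact ⟨n, hn.trans (subset_sUnion_of_mem hs)⟩

theorem isOpen_iffN {G : Set T} : IsOpen G ↔ ∀ y ∈ G, ∃ n, N y n ⊆ G := Iff.rfl

theorem isOpen_N (x : T) (n : ℕ) : IsOpen (N x n) := fun y hy => ⟨n, N_sub hy le_rfl⟩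

theorem isClosed_N (x : T) (n : ℕ) : IsClosed (N x n) := by
  rw [← isOpen_compl_iff]
  intro y hy
  obtain ⟨k, hk⟩ := N_sep hy
  exact ⟨k, fun w hw => hk w hw⟩

theorem ne_sep {x y : T} (h : x ≠ y) : ∃ i, y ∉ N x (i+1) := by
  have : ∃ i, x i ≠ y i := by
    by_contra h3
    push Not at h3
    exact h (OrderHom.ext _ _ (funext h3))
  obtain ⟨i, hi⟩ := this
  exact ⟨i, fun hy => hi (hy.1 i (Nat.lt_succ_self i)).symm⟩

theorem mem_nhds_N (x : T) (n : ℕ) : N x n ∈ 𝓝 x := (isOpen_N x n).mem_nhds (self_mem x n)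

instance : T3Space T := by
  haveI : RegularSpace T := by
    refine RegularSpace.of_exists_mem_nhds_isClosed_subset fun x s hs => ?_
    obtain ⟨G, hG, ho, hx⟩ := mem_nhds_iff.1 hs
    obtain ⟨n, hn⟩ := ho x hx
    exact ⟨N x n, mem_nhds_N x n, isClosed_N x n, hn.trans hG⟩
  haveI : T0Space T := by
    refine ⟨fun x y h => ?_⟩
    by_contra hne
    obtain ⟨i, hi⟩ := ne_sep hne
    exact hi ((h.mem_open_iff (isOpen_N x (i+1))).1 (self_mem _ _))
  exact {}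

/-- dense, in terms of the basic sets -/
def Dn (G : Set T) : Prop := ∀ x n, ∃ y ∈ N x n, y ∈ G

theorem Dn.mono {G H : Set T} (h : Dn G) (hs : G ⊆ H) : Dn H := fun x n => by
  obtain ⟨y, h1, h2⟩ := h x n
  exact ⟨y, h1, hs h2⟩

theorem baire_seq (G : ℕ → Set T) (ho : ∀ k, IsOpen (G k)) (hd : ∀ k, Dn (G k)) (x : T) (n : ℕ) :
    ∃ y ∈ N x n, ∀ k, y ∈ G k := by
  have step : ∀ (k : ℕ) (p : T × ℕ), ∃ q : T × ℕ, q.1 ∈ N p.1 p.2 ∧ p.2 < q.2 ∧
      N q.1 q.2 ⊆ G k := by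
    intro k p
    obtain ⟨y, hy, hyG⟩ := hd k p.1 p.2
    obtain ⟨m, hm⟩ := ho k y hyG
    exact ⟨(y, max m (p.2+1)), hy, by simp, (N_anti y (le_max_left _ _)).trans hm⟩
  choose F hF1 hF2 hF3 using step
  let s : ℕ → T × ℕ := fun k => Nat.rec (x, n) (fun k p => F k p) k
  have hs : ∀ k, s (k+1) = F k (s k) := fun k => rfl
  have hmono : ∀ k, (s k).2 < (s (k+1)).2 := fun k => by rw [hs]; exact hF2 k (s k)
  have hle : ∀ k, k ≤ (s k).2 := by
    intro k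
    induction k with
    | zero => exact Nat.zero_le _
    | succ k ih => exact Nat.succ_le_of_lt (lt_of_le_of_lt ih (hmono k))
  have hsub1 : ∀ k, N (s (k+1)).1 (s (k+1)).2 ⊆ N (s k).1 (s k).2 := fun k =>
    N_sub (by rw [hs]; exact hF1 k (s k)) (hmono k).le
  have hsub : ∀ k l, k ≤ l → N (s l).1 (s l).2 ⊆ N (s k).1 (s k).2 := by
    intro k l hkl
    induction hkl with
    | refl => exact subset_rfl
    | step h ih => exact (hsub1 _).trans ih
  have hmem : ∀ k l, k ≤ l → (s l).1 ∈ N (s k).1 (s k).2 := fun k l hkl =>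
    hsub k l hkl (self_mem _ _)
  have hval : ∀ i l, i+1 ≤ l → (s l).1 i = (s (i+1)).1 i := fun i l hl =>
    (hmem (i+1) l hl).1 i (lt_of_lt_of_le (Nat.lt_succ_self i) (hle (i+1)))
  let y : T := ⟨fun i => (s (i+1)).1 i, by
    refine monotone_nat_of_le_succ fun i => ?_
    rw [← hval i (i+1+1) (by omega)]
    exact (s (i+1+1)).1.monotone (Nat.le_succ i)⟩
  have hy : ∀ i l, i+1 ≤ l → y i = (s l).1 i := fun i l hl => (hval i l hl).symm
  have hyk : ∀ k, y ∈ N (s k).1 (s k).2 := by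
    intro k
    constructor
    · intro i hi
      rw [hy i (max k (i+1)) (le_max_right _ _)]
      exact (hmem k _ (le_max_left _ _)).1 i hi
    · intro i
      rw [hy i (max k (i+1)) (le_max_right _ _)]
      exact (hmem k _ (le_max_left _ _)).2 i
  refine ⟨y, hyk 0, fun k => ?_⟩
  have := hyk (k+1)
  rw [hs] at this
  exact hF3 k (s k) this

theorem baire_set (S : Set (Set T)) (hc : S.Countable) (ho : ∀ G ∈ S, IsOpen G)
    (hd : ∀ G ∈ S, Dn G) (x : T) (n : ℕ) : ∃ y ∈ N x n, ∀ G ∈ S, y ∈ G := by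
  rcases S.eq_empty_or_nonempty with h | h
  · exact ⟨x, self_mem x n, by simp [h]⟩
  · obtain ⟨f, hf⟩ := hc.exists_eq_range h
    obtain ⟨y, hy, hyk⟩ := baire_seq f (fun k => ho _ (by rw [hf]; exact mem_range_self k))
      (fun k => hd _ (by rw [hf]; exact mem_range_self k)) x n
    refine ⟨y, hy, fun G hG => ?_⟩
    rw [hf] at hG
    obtain ⟨k, rfl⟩ := hG
    exact hyk k

/-- initial segments as lists -/
def seg (x : T) (n : ℕ) : List ℕ := (List.range n).map x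

theorem seg_eq {x y : T} {n : ℕ} : seg x n = seg y n ↔ ∀ i < n, x i = y i := by
  unfold seg
  rw [List.map_inj_left]
  simp

theorem ccc {ι : Type*} (G : ι → Set T) (ho : ∀ i, IsOpen (G i)) :
    ∃ J : Set ι, J.Countable ∧ ∀ z m, (∃ i, ∃ y ∈ N z m, y ∈ G i) →
      ∃ i ∈ J, ∃ y ∈ N z m, y ∈ G i := by
  classical
  let Q : ℕ × List ℕ → Prop := fun s => ∃ i, ∃ y : T, seg y s.1 = s.2 ∧ N y s.1 ⊆ G i
  let idx : {s // Q s} → ι := fun s => Classical.choose s.2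
  have hidx : ∀ s : {s // Q s}, ∃ y : T, seg y s.1.1 = s.1.2 ∧ N y s.1.1 ⊆ G (idx s) :=
    fun s => Classical.choose_spec s.2
  refine ⟨range idx, countable_range idx, ?_⟩
  rintro z m ⟨i, y, hy, hyi⟩
  obtain ⟨k, hk⟩ := ho i y hyi
  let n := max m k
  have hQ : Q (n, seg y n) := ⟨i, y, rfl, (N_anti y (le_max_right _ _)).trans hk⟩
  obtain ⟨y', h1, h2⟩ := hidx ⟨(n, seg y n), hQ⟩
  have h1' : ∀ i < n, y' i = y i := seg_eq.1 h1
  refine ⟨_, ⟨⟨(n, seg y n), hQ⟩, rfl⟩, z ⊔ y', ⟨fun j hj => ?_, fun j => ?_⟩, h2 ⟨fun j hj => ?_, fun j => ?_⟩⟩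
  · show max (z j) (y' j) = z j
    have := hy.1 j hj
    rw [h1' j (lt_of_lt_of_le hj (le_max_left _ _)), this, max_self]
  · exact le_max_left (z j) (y' j)
  · show max (z j) (y' j) = y' j
    have := hy.2 j
    rw [h1' j hj]
    exact max_eq_right this
  · exact le_max_right (z j) (y' j)

/-- recursion along a well-order -/
theorem rec_exists {O : Type*} {A : Type*} [Nonempty A] [LinearOrder O] [WellFoundedLT O]
    (P : O → (O → A) → A → Prop)
    (hloc : ∀ α f g v, (∀ β, β < α → f β = g β) → P α f v → P α g v)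
    (hex : ∀ α f, ∃ v, P α f v) : ∃ D : O → A, ∀ α, P α D (D α) := by
  classical
  let F : (α : O) → ((β : O) → β < α → A) → A := fun α prev =>
    Classical.choose (hex α (fun β => if h : β < α then prev β h else Classical.arbitrary A))
  let D : O → A := WellFounded.fix (wellFounded_lt : WellFounded ((· < ·) : O → O → Prop)) F
  refine ⟨D, fun α => ?_⟩
  have h1 : D α = F α (fun β _ => D β) := WellFounded.fix_eq _ _ _
  have h2 := Classical.choose_spec (hex α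
    (fun β => if h : β < α then D β else Classical.arbitrary A))
  have h3 : D α = Classical.choose (hex α
    (fun β => if h : β < α then D β else Classical.arbitrary A)) := h1
  rw [← h3] at h2
  exact hloc α _ D _ (fun β hβ => by simp [hβ]) h2

/-- the countable, locally finite families of pairs of `D` which dominate everything in the
piece `u ↾ m` -/
def Gam (D : Set (T × ℕ)) (u : T) (m : ℕ) : Prop :=
  ∃ L : Set (T × ℕ), L ⊆ D ∧ L.Countable ∧ (∀ p ∈ L, ∀ i < m, p.1 i = u i) ∧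
    (∀ x : T, (∀ i < m, x i = u i) → ∃ p ∈ L, ∀ i < p.2, x i ≤ p.1 i) ∧
    ∀ y : T, ∃ K, {p ∈ L | ∀ i < K, p.1 i ≤ y i}.Finite

theorem Gam.congr {D : Set (T × ℕ)} {u v : T} {m : ℕ} (h : ∀ i < m, u i = v i)
    (hG : Gam D u m) : Gam D v m := by
  obtain ⟨L, h1, h2, h3, h4, h5⟩ := hG
  exact ⟨L, h1, h2, fun p hp i hi => (h3 p hp i hi).trans (h i hi),
    fun x hx => h4 x (fun i hi => (hx i hi).trans (h i hi).symm), h5⟩

theorem Gam.self {D : Set (T × ℕ)} {z : T} {k : ℕ} (h : (z, k) ∈ D) : Gam D z k := by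
  refine ⟨{(z, k)}, by simpa using h, countable_singleton _, ?_, ?_, ?_⟩
  · intro p hp i hi
    rw [mem_singleton_iff] at hp
    rw [hp]
  · intro x hx
    exact ⟨(z, k), rfl, fun i hi => (hx i hi).le⟩
  · intro y
    exact ⟨0, (finite_singleton (z, k)).subset (fun p hp => hp.1)⟩

theorem Gam.limit {D : Set (T × ℕ)} (u : T) (m m' : ℕ) (hm : m < m')
    (h : ∀ M, ∃ v : T, (∀ i < m, v i = u i) ∧ M ≤ v m ∧ Gam D v m') : Gam D u m := by
  choose v hv1 hv2 hv3 using h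
  choose L hL1 hL2 hL3 hL4 hL5 using hv3
  refine ⟨⋃ M, L M, iUnion_subset hL1, countable_iUnion hL2, ?_, ?_, ?_⟩
  · intro p hp i hi
    obtain ⟨M, hM⟩ := mem_iUnion.1 hp
    rw [hL3 M p hM i (hi.trans hm), hv1 M i hi]
  · intro x hx
    have hkey : ∀ i < m', (x ⊔ v (x m')) i = v (x m') i := by
      intro i hi
      show max (x i) (v (x m') i) = v (x m') i
      apply max_eq_right
      rcases lt_or_ge i m with h | h
      · rw [hx i h, hv1 _ i h]
      · calc x i ≤ x m' := x.monotone hi.le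
          _ ≤ v (x m') m := hv2 _
          _ ≤ v (x m') i := (v _).monotone h
    obtain ⟨p, hp, hpx⟩ := hL4 (x m') (x ⊔ v (x m')) hkey
    exact ⟨p, mem_iUnion.2 ⟨_, hp⟩, fun i hi => (le_max_left (x i) _).trans (hpx i hi)⟩
  · intro y
    choose K hK using fun M => hL5 M y
    refine ⟨max (m+1) ((Finset.range (y m + 1)).sup K), ?_⟩
    refine ((Finset.range (y m + 1)).finite_toSet.biUnion
      (t := fun M => {p ∈ L M | ∀ i < K M, p.1 i ≤ y i}) (fun M _ => hK M)).subset ?_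
    rintro p ⟨hp, hpy⟩
    obtain ⟨M, hM⟩ := mem_iUnion.1 hp
    have h1 : p.1 m ≤ y m := hpy m (lt_of_lt_of_le (Nat.lt_succ_self m) (le_max_left _ _))
    have h2 : M ≤ p.1 m := by rw [hL3 M p hM m hm]; exact hv2 M
    have h3 : M ∈ Finset.range (y m + 1) := by
      rw [Finset.mem_range]; omega
    refine mem_biUnion (show M ∈ ((Finset.range (y m + 1) : Finset ℕ) : Set ℕ) from h3) ⟨hM, fun i hi => hpy i
      (lt_of_lt_of_le hi ((Finset.le_sup h3).trans (le_max_right _ _)))⟩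

theorem lemmaR (n : ℕ) (g0 : T) (D : Set (T × ℕ))
    (h : ∀ x ∈ N g0 n, ∃ p ∈ D, n ≤ p.2 ∧ p.1 ∈ N x n) : Gam D g0 n := by
  classical
  by_contra hno
  let H : ℕ → (ℕ → ℕ) → Prop := fun j f => ∀ v : T, (∀ i < n, v i = g0 i) →
    (∀ i, n ≤ i → i < j → f i ≤ v i) → ∀ i, n ≤ i → i ≤ j → ¬ Gam D v i
  have Hloc : ∀ j (f g : ℕ → ℕ), (∀ i, i < j → f i = g i) → H j f → H j g := by
    intro j f g hfg hf v hv hv2
    exact hf v hv (fun i h1 h2 => by rw [hfg i h2]; exact hv2 i h1 h2)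
  have hstep : ∀ j, n ≤ j → ∀ f : ℕ → ℕ, H j f → ∃ a, ∀ v : T, (∀ i < n, v i = g0 i) →
      (∀ i, n ≤ i → i < j → f i ≤ v i) → a ≤ v j → ¬ Gam D v (j+1) := by
    intro j hj f hf
    by_contra hcon
    push Not at hcon
    have hU : ∀ i, n ≤ i → i ≤ j → ∃ u : T, ∀ M, ∃ v : T, (∀ l < n, v l = g0 l) ∧
        (∀ l, n ≤ l → l < j → f l ≤ v l) ∧ Gam D v (j+1) ∧ (∀ l < i, v l = u l) ∧ M ≤ v j := by
      intro i hi
      induction i, hi using Nat.le_induction with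
      | base =>
        intro _
        refine ⟨g0, fun M => ?_⟩
        obtain ⟨v, h1, h2, h3, h4⟩ := hcon M
        exact ⟨v, h1, h2, h4, h1, h3⟩
      | succ i hi ih =>
        intro hij
        obtain ⟨u, hu⟩ := ih (by omega)
        by_cases hb : ∀ M, ∃ v : T, ((∀ l < n, v l = g0 l) ∧ (∀ l, n ≤ l → l < j → f l ≤ v l) ∧
            Gam D v (j+1)) ∧ (∀ l < i, v l = u l) ∧ M ≤ v i
        · exfalso
          have hG : Gam D u i := Gam.limit u i (j+1) (by omega) (fun M => by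
            obtain ⟨v, ⟨h1, h2, h3⟩, h4, h5⟩ := hb M
            exact ⟨v, h4, h5, h3⟩)
          obtain ⟨v, h1, h2, h3, h4, h5⟩ := hu 0
          exact hf v h1 h2 i hi (by omega) (hG.congr (fun l hl => (h4 l hl).symm))
        · push Not at hb
          obtain ⟨M0, hM0⟩ := hb
          have hp : ∃ a < M0, ∀ M, ∃ v : T, (∀ l < n, v l = g0 l) ∧
              (∀ l, n ≤ l → l < j → f l ≤ v l) ∧ Gam D v (j+1) ∧ (∀ l < i, v l = u l) ∧
              v i = a ∧ M ≤ v j := by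
            by_contra hcon2
            push Not at hcon2
            choose! c hc using hcon2
            obtain ⟨v, h1, h2, h3, h4, h5⟩ := hu ((Finset.range M0).sup c)
            have h6 : v i < M0 := hM0 v ⟨h1, h2, h3⟩ h4
            exact absurd h5 (not_le.2 (lt_of_lt_of_le (hc (v i) h6 v h1 h2 h3 h4 rfl)
              (Finset.le_sup (Finset.mem_range.2 h6))))
          obtain ⟨a, ha, hM⟩ := hp
          obtain ⟨u', k1, k2, k3, k4, k5, k6⟩ := hM 0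
          refine ⟨u', fun M => ?_⟩
          obtain ⟨v, h1, h2, h3, h4, h5, h6⟩ := hM M
          refine ⟨v, h1, h2, h3, fun l hl => ?_, h6⟩
          rcases Nat.lt_succ_iff_lt_or_eq.1 hl with h | rfl
          · rw [h4 l h, k4 l h]
          · rw [h5, k5]
    obtain ⟨u, hu⟩ := hU j hj le_rfl
    have hG : Gam D u j := Gam.limit u j (j+1) (by omega) (fun M => by
      obtain ⟨v, h1, h2, h3, h4, h5⟩ := hu M
      exact ⟨v, h4, h5, h3⟩)
    obtain ⟨v, h1, h2, h3, h4, h5⟩ := hu 0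
    exact hf v h1 h2 j hj le_rfl (hG.congr (fun l hl => (h4 l hl).symm))
  obtain ⟨g, hg⟩ : ∃ g : ℕ → ℕ, ∀ j, n ≤ j → H j g → ∀ v : T, (∀ i < n, v i = g0 i) →
      (∀ i, n ≤ i → i < j → g i ≤ v i) → g j ≤ v j → ¬ Gam D v (j+1) := by
    refine rec_exists (O := ℕ) (A := ℕ) (fun j f a => n ≤ j → H j f → ∀ v : T,
      (∀ i < n, v i = g0 i) → (∀ i, n ≤ i → i < j → f i ≤ v i) → a ≤ v j →
        ¬ Gam D v (j+1)) ?_ ?_
    · intro j f f' a hff h1 hj hH v hv hv2 hv3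
      exact h1 hj (Hloc j f' f (fun i hi => (hff i hi).symm) hH) v hv
        (fun i h1 h2 => by rw [hff i h2]; exact hv2 i h1 h2) hv3
    · intro j f
      by_cases hh : n ≤ j ∧ H j f
      · obtain ⟨a, ha⟩ := hstep j hh.1 f hh.2
        exact ⟨a, fun _ _ => ha⟩
      · exact ⟨0, fun h1 h2 => absurd ⟨h1, h2⟩ hh⟩
  have hH : ∀ j, n ≤ j → H j g := by
    intro j hj
    induction j, hj using Nat.le_induction with
    | base =>
      intro v hv _ i h1 h2 hG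
      obtain rfl : i = n := le_antisymm h2 h1
      exact hno (hG.congr hv)
    | succ j hj ih =>
      intro v hv hv2 i h1 h2
      rcases Nat.le_succ_iff.1 h2 with h | h
      · exact ih v hv (fun l h3 h4 => hv2 l h3 (by omega)) i h1 h
      · subst h
        exact hg j hj ih v hv (fun l h3 h4 => hv2 l h3 (by omega)) (hv2 j hj (by omega))
  let x : T := ⟨fun i => if i < n then g0 i else g0 i + ∑ l ∈ Finset.range (i+1), g l, by
    intro i j hij
    show (if i < n then g0 i else g0 i + ∑ l ∈ Finset.range (i+1), g l) ≤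
      (if j < n then g0 j else g0 j + ∑ l ∈ Finset.range (j+1), g l)
    have h0 : g0 i ≤ g0 j := g0.monotone hij
    have h1 : ∑ l ∈ Finset.range (i+1), g l ≤ ∑ l ∈ Finset.range (j+1), g l :=
      Finset.sum_le_sum_of_subset (Finset.range_mono (by omega))
    split_ifs <;> omega⟩
  have hx1 : ∀ i, i < n → x i = g0 i := fun i hi => if_pos hi
  have hx2 : ∀ i, n ≤ i → x i = g0 i + ∑ l ∈ Finset.range (i+1), g l :=
    fun i hi => if_neg (not_lt.2 hi)
  have hxN : x ∈ N g0 n := by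
    refine ⟨hx1, fun i => ?_⟩
    rcases lt_or_ge i n with h | h
    · rw [hx1 i h]
    · rw [hx2 i h]; exact Nat.le_add_right _ _
  obtain ⟨⟨z, k⟩, hp, hk, hz⟩ := h x hxN
  refine hH k hk z (fun i hi => (hz.1 i hi).trans (hx1 i hi)) (fun i h1 h2 => ?_) k hk le_rfl
    (Gam.self hp)
  refine le_trans ?_ (hz.2 i)
  rw [hx2 i h1]
  refine le_trans ?_ (Nat.le_add_left _ _)
  exact Finset.single_le_sum (f := g) (fun _ _ => Nat.zero_le _) (Finset.mem_range.2 (Nat.lt_succ_self i))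


/-- codes for open sets -/
abbrev Code := ℕ → T × ℕ

def op (c : Code) : Set T := ⋃ k, N (c k).1 (c k).2

theorem isOpen_op (c : Code) : IsOpen (op c) := isOpen_iUnion fun k => isOpen_N _ _

structure Guess (O : Type) [LinearOrder O] where
  cnt : ∀ α : O, (Iio α).Countable
  bdd : ∀ S : Set O, S.Countable → ∃ α, ∀ β ∈ S, β < α
  E : O → Code
  surj : Function.Surjective E
  b : O → O → ℕ → Code
  guess : ∀ (B : O → ℕ → Code) (G : O → O) (β0 : O), ∃ δ, β0 < δ ∧ (∀ α, α < δ → G α < δ) ∧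
    ∀ α, α < δ → ∀ n, b δ α n = B α n

def Spec {O : Type} [LinearOrder O] (b : O → O → ℕ → Code) (α : O) (x : O → T) (W : Set T)
    (J : Set (O × ℕ)) : Prop :=
  (∀ j ∈ J, j.1 < α) ∧ (∀ β, β < α → x β ∈ W) ∧ IsOpen W ∧ Dn W ∧
    (W ⊆ ⋃ j ∈ J, op (b α j.1 j.2)) ∧
    ∀ y ∈ W, ∃ k, {j ∈ J | (N y k ∩ op (b α j.1 j.2)).Nonempty}.Finite

theorem Spec.congr {O : Type} [LinearOrder O] {b : O → O → ℕ → Code} {α : O} {x x' : O → T}
    {W : Set T} {J : Set (O × ℕ)} (h : ∀ β, β < α → x β = x' β) (hS : Spec b α x W J) :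
    Spec b α x' W J :=
  ⟨hS.1, fun β hβ => by rw [← h β hβ]; exact hS.2.1 β hβ, hS.2.2⟩

theorem construct {O : Type} [LinearOrder O] [WellFoundedLT O] (g : Guess O) :
    ∃ (x : O → T) (W : O → Set T),
      (∀ α, x α ∈ N (g.E α 0).1 (g.E α 0).2) ∧
      (∀ α β, β < α → Dn (op (g.E β)) → x α ∈ op (g.E β)) ∧
      (∀ α β, β ≤ α → x α ∈ W β) ∧
      (∀ α, (∃ V J, Spec g.b α x V J) → ∃ J, Spec g.b α x (W α) J) := by
  classical
  haveI : Nonempty (T × {W : Set T // IsOpen W ∧ Dn W}) :=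
    ⟨(⊥, ⟨univ, isOpen_univ, fun x n => ⟨x, self_mem x n, trivial⟩⟩)⟩
  obtain ⟨D, hD⟩ : ∃ D : O → T × {W : Set T // IsOpen W ∧ Dn W}, ∀ α,
      ((D α).1 ∈ N (g.E α 0).1 (g.E α 0).2 ∧
      (∀ β, β < α → Dn (op (g.E β)) → (D α).1 ∈ op (g.E β)) ∧
      (∀ β, β < α → (D α).1 ∈ (D β).2.1) ∧ (D α).1 ∈ (D α).2.1 ∧
      ((∃ V J, Spec g.b α (fun β => (D β).1) V J) →
        ∃ J, Spec g.b α (fun β => (D β).1) (D α).2.1 J)) := by
    refine rec_exists (O := O) (A := T × {W : Set T // IsOpen W ∧ Dn W})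
      (fun α f v => v.1 ∈ N (g.E α 0).1 (g.E α 0).2 ∧
      (∀ β, β < α → Dn (op (g.E β)) → v.1 ∈ op (g.E β)) ∧
      (∀ β, β < α → v.1 ∈ (f β).2.1) ∧ v.1 ∈ v.2.1 ∧
      ((∃ V J, Spec g.b α (fun β => (f β).1) V J) →
        ∃ J, Spec g.b α (fun β => (f β).1) v.2.1 J)) ?_ ?_
    · rintro α f f' v hff ⟨h1, h2, h3, h4, h5⟩
      refine ⟨h1, h2, fun β hβ => by rw [← hff β hβ]; exact h3 β hβ, h4, ?_⟩
      rintro ⟨V, J, hVJ⟩
      obtain ⟨J', hJ'⟩ := h5 ⟨V, J, hVJ.congr (fun β hβ => by rw [hff β hβ])⟩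
      exact ⟨J', hJ'.congr (fun β hβ => by rw [hff β hβ])⟩
    · intro α f
      obtain ⟨W, hW⟩ : ∃ W : {W : Set T // IsOpen W ∧ Dn W},
          ((∃ V J, Spec g.b α (fun β => (f β).1) V J) →
            ∃ J, Spec g.b α (fun β => (f β).1) W.1 J) := by
        by_cases h : ∃ V J, Spec g.b α (fun β => (f β).1) V J
        · obtain ⟨V, J, hVJ⟩ := h
          exact ⟨⟨V, hVJ.2.2.1, hVJ.2.2.2.1⟩, fun _ => ⟨J, hVJ⟩⟩
        · exact ⟨⟨univ, isOpen_univ, fun x n => ⟨x, self_mem x n, trivial⟩⟩,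
            fun h' => absurd h' h⟩
      let S : Set (Set T) := ((fun β => op (g.E β)) '' {β | β < α ∧ Dn (op (g.E β))}) ∪
        ((fun β => (f β).2.1) '' Iio α) ∪ {W.1}
      have hS : S.Countable := (((((g.cnt α).mono (fun β hβ => hβ.1)).image _).union
        ((g.cnt α).image _)).union (countable_singleton _))
      obtain ⟨y, hy, hyS⟩ := baire_set S hS
        (by
          rintro G ((⟨β, hβ, rfl⟩ | ⟨β, hβ, rfl⟩) | rfl)
          · exact isOpen_op _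
          · exact (f β).2.2.1
          · exact W.2.1)
        (by
          rintro G ((⟨β, hβ, rfl⟩ | ⟨β, hβ, rfl⟩) | rfl)
          · exact hβ.2
          · exact (f β).2.2.2
          · exact W.2.2) (g.E α 0).1 (g.E α 0).2
      exact ⟨(y, W), hy, fun β hβ h => hyS _ (Or.inl (Or.inl ⟨β, ⟨hβ, h⟩, rfl⟩)),
        fun β hβ => hyS _ (Or.inl (Or.inr ⟨β, hβ, rfl⟩)), hyS _ (Or.inr rfl), hW⟩
  refine ⟨fun α => (D α).1, fun α => (D α).2.1, fun α => (hD α).1, fun α => (hD α).2.1,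
      fun α β hβ => ?_, fun α => (hD α).2.2.2.2⟩
  rcases hβ.lt_or_eq with h | rfl
  · exact (hD α).2.2.1 β h
  · exact (hD β).2.2.2.1

section
variable {O : Type} [LinearOrder O] (g : Guess O) (x : O → T)

theorem hits (h1 : ∀ α, x α ∈ N (g.E α 0).1 (g.E α 0).2) (t : T) (m : ℕ) :
    ∃ α, x α ∈ N t m := by
  obtain ⟨α, hα⟩ := g.surj (fun _ => (t, m))
  have := h1 α
  rw [hα] at this
  exact ⟨α, this⟩

theorem luzin (h2 : ∀ α β, β < α → Dn (op (g.E β)) → x α ∈ op (g.E β)) (G : Set T)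
    (hG : IsOpen G) (hd : Dn G) : ∃ γ, ∀ α, γ < α → x α ∈ G := by
  obtain ⟨J, hJ, hJ2⟩ := ccc (fun p : {p : T × ℕ // N p.1 p.2 ⊆ G} => N p.1.1 p.1.2)
    (fun p => isOpen_N _ _)
  have hex : ∀ z m, ∃ i ∈ J, ∃ y ∈ N z m, y ∈ N i.1.1 i.1.2 := by
    intro z m
    obtain ⟨y, hy, hyG⟩ := hd z m
    obtain ⟨k, hk⟩ := hG y hyG
    exact hJ2 z m ⟨⟨(y, k), hk⟩, y, hy, self_mem y k⟩
  have hne : J.Nonempty := by
    obtain ⟨i, hi, _⟩ := hex ⊥ 0
    exact ⟨i, hi⟩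
  obtain ⟨f, hf⟩ := hJ.exists_eq_range hne
  obtain ⟨γ, hγ⟩ := g.surj (fun k => (f k).1)
  have hop : op (g.E γ) ⊆ G := by
    rw [hγ]
    exact iUnion_subset fun k => (f k).2
  have hD : Dn (op (g.E γ)) := by
    intro z m
    obtain ⟨i, hi, y, hy, hyi⟩ := hex z m
    rw [hf] at hi
    obtain ⟨k, rfl⟩ := hi
    refine ⟨y, hy, ?_⟩
    rw [hγ]
    exact mem_iUnion.2 ⟨k, hyi⟩
  exact ⟨γ, fun α hα => hop (h2 α γ hα hD)⟩

include g in
theorem hered (hl : ∀ G : Set T, IsOpen G → Dn G → ∃ γ, ∀ α, γ < α → x α ∈ G)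
    {ι : Type*} (G : ι → Set T) (ho : ∀ i, IsOpen (G i)) :
    ∃ J : Set ι, J.Countable ∧ ∀ α, (∃ i, x α ∈ G i) → ∃ i ∈ J, x α ∈ G i := by
  classical
  obtain ⟨J, hJ, hJ2⟩ := ccc G ho
  let W : Set T := ⋃ i ∈ J, G i
  have hW : IsOpen W := isOpen_biUnion fun i _ => ho i
  obtain ⟨γ, hγ⟩ := hl (W ∪ {z | ∃ m, ∀ y ∈ N z m, y ∉ W})
    (by
      refine hW.union ?_
      rintro z ⟨m, hm⟩
      exact ⟨m, fun w hw => ⟨m, fun y hy => hm y (N_sub hw le_rfl hy)⟩⟩)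
    (by
      intro z m
      by_cases h : ∃ y ∈ N z m, y ∈ W
      · obtain ⟨y, hy, hyW⟩ := h
        exact ⟨y, hy, Or.inl hyW⟩
      · push Not at h
        exact ⟨z, self_mem z m, Or.inr ⟨m, h⟩⟩)
  let c : {α : O // α ≤ γ ∧ ∃ i, x α ∈ G i} → ι := fun α => Classical.choose α.2.2
  have hc : ∀ α : {α : O // α ≤ γ ∧ ∃ i, x α ∈ G i}, x α ∈ G (c α) :=
    fun α => Classical.choose_spec α.2.2
  have hcount : Countable {α : O // α ≤ γ ∧ ∃ i, x α ∈ G i} := by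
    have : (Iic γ).Countable := by
      have := (g.cnt γ).union (countable_singleton γ)
      exact this.mono (fun α hα => by
        rcases (show α ≤ γ from hα).lt_or_eq with h | h
        · exact Or.inl h
        · exact Or.inr h)
    exact (this.mono (s₂ := Iic γ) (s₁ := {α : O | α ≤ γ ∧ ∃ i, x α ∈ G i}) (fun α hα => hα.1)).to_subtype
  refine ⟨J ∪ range c, hJ.union (countable_range c), ?_⟩
  rintro α ⟨i, hi⟩
  rcases le_or_gt α γ with h | h
  · exact ⟨c ⟨α, h, i, hi⟩, Or.inr ⟨_, rfl⟩, hc ⟨α, h, i, hi⟩⟩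
  · rcases hγ α h with h | ⟨m, hm⟩
    · obtain ⟨j, hj, hxj⟩ := mem_iUnion₂.1 h
      exact ⟨j, Or.inl hj, hxj⟩
    · exfalso
      obtain ⟨j, hj, y, hy, hyj⟩ := hJ2 (x α) m ⟨i, x α, self_mem _ _, hi⟩
      exact hm y hy (mem_iUnion₂.2 ⟨j, hj, hyj⟩)

/-- a partial refinement -/
structure Good (B : O → ℕ → Code) (p : Set T × Set (O × ℕ)) : Prop where
  opn : IsOpen p.1
  cls : IsClosed p.1
  cnt : p.2.Countable
  lf : ∀ y, ∃ k, {j ∈ p.2 | (N y k ∩ op (B j.1 j.2)).Nonempty}.Finite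
  cov : p.1 ⊆ ⋃ j ∈ p.2, op (B j.1 j.2)

def Done (τ : (List ℕ × ℕ) ⊕ O) (W : Set T) : Prop :=
  (∀ l n, τ = Sum.inl (l, n) → ∀ z : T, seg z n = l → ∃ w ∈ N z n, w ∈ W) ∧
  ∀ β, τ = Sum.inr β → x β ∈ W

def Ext (B : O → ℕ → Code) (p q : Set T × Set (O × ℕ)) : Prop :=
  p.1 ⊆ q.1 ∧ p.2 ⊆ q.2 ∧ ∀ j ∈ q.2, j ∉ p.2 → ∀ y ∈ op (B j.1 j.2), y ∉ p.1

theorem step (h1 : ∀ t m, ∃ α, x α ∈ N t m) (B : O → ℕ → Code)
    (hB1 : ∀ α n, x α ∈ op (B α n)) (hB2 : ∀ α n, op (B α n) ⊆ N (x α) n)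
    (τ : (List ℕ × ℕ) ⊕ O) (p : Set T × Set (O × ℕ)) (hp : Good B p) :
    ∃ q : Set T × Set (O × ℕ), Good B q ∧ Ext B p q ∧ Done x τ q.1 := by
  classical
  have hrefl : Ext B p p := ⟨subset_rfl, subset_rfl, fun j hj hj' => absurd hj hj'⟩
  -- the general extension lemma
  have hsep : ∀ y, y ∉ p.1 → ∃ k, ∀ w ∈ N y k, w ∉ p.1 := by
    intro y hy
    obtain ⟨k, hk⟩ := hp.cls.isOpen_compl y hy
    exact ⟨k, fun w hw => hk hw⟩
  rcases τ with ⟨l, n⟩ | β
  · by_cases hdone : ∀ z : T, seg z n = l → ∃ w ∈ N z n, w ∈ p.1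
    · refine ⟨p, hp, hrefl, ?_, ?_⟩
      · intro l' n' h z hz
        simp only [Sum.inl.injEq, Prod.mk.injEq] at h
        obtain ⟨rfl, rfl⟩ := h
        exact hdone z hz
      · intro β h
        cases h
    · push Not at hdone
      obtain ⟨g0, hg0, hdis⟩ := hdone
      let D : Set (T × ℕ) := {q | ∃ β, q.1 = x β ∧ x β ∈ N g0 n ∧ N (x β) q.2 ⊆ op (B β n)}
      obtain ⟨L, hLD, hLc, hL3, hL4, hL5⟩ := lemmaR n g0 D (by
        intro z hz
        obtain ⟨β, hβ⟩ := h1 z n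
        obtain ⟨k, hk⟩ := isOpen_op (B β n) (x β) (hB1 β n)
        exact ⟨(x β, max n k), ⟨β, rfl, N_sub hz le_rfl hβ,
          (N_anti _ (le_max_right _ _)).trans hk⟩, le_max_left _ _, hβ⟩)
      haveI : Nonempty O := ⟨(h1 ⊥ 0).choose⟩
      have hLD' : ∀ q ∈ L, ∃ β, q.1 = x β ∧ x β ∈ N g0 n ∧ N (x β) q.2 ⊆ op (B β n) :=
        fun q hq => hLD hq
      choose! r hr using hLD'
      -- `r q : O` with the three properties
      have hr1 : ∀ q ∈ L, q.1 = x (r q) := fun q hq => (hr q hq).1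
      have hr2 : ∀ q ∈ L, x (r q) ∈ N g0 n := fun q hq => (hr q hq).2.1
      have hr3 : ∀ q ∈ L, N q.1 q.2 ⊆ op (B (r q) n) := fun q hq => by
        rw [hr1 q hq]; exact (hr q hq).2.2
      -- key finiteness
      have hfin : ∀ y : T, ∃ K, {q ∈ L | (N y K ∩ N (x (r q)) n).Nonempty}.Finite := by
        intro y
        obtain ⟨K, hK⟩ := hL5 y
        refine ⟨K, hK.subset ?_⟩
        rintro q ⟨hq, w, hw1, hw2⟩
        refine ⟨hq, fun i hi => ?_⟩
        rw [hr1 q hq, ← hw1.1 i hi]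
        exact hw2.2 i
      have hWopen : IsOpen (⋃ q ∈ L, N q.1 q.2) := isOpen_biUnion fun q _ => isOpen_N _ _
      have hWclosed : IsClosed (⋃ q ∈ L, N q.1 q.2) := by
        rw [← isOpen_compl_iff]
        intro y hy
        obtain ⟨K, hK⟩ := hfin y
        have hcl : IsClosed (⋃ q ∈ {q ∈ L | (N y K ∩ N (x (r q)) n).Nonempty}, N q.1 q.2) :=
          hK.isClosed_biUnion (fun q _ => isClosed_N _ _)
        have hy' : y ∉ (⋃ q ∈ {q ∈ L | (N y K ∩ N (x (r q)) n).Nonempty}, N q.1 q.2) := by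
          intro hmem
          obtain ⟨q, hq, hyq⟩ := mem_iUnion₂.1 hmem
          exact hy (mem_iUnion₂.2 ⟨q, hq.1, hyq⟩)
        obtain ⟨k, hk⟩ := hcl.isOpen_compl y hy'
        refine ⟨max K k, fun w hw hmem => ?_⟩
        obtain ⟨q, hq, hwq⟩ := mem_iUnion₂.1 hmem
        refine hk (N_anti y (le_max_right _ _) hw) (mem_iUnion₂.2 ⟨q, ⟨hq, w,
          N_anti y (le_max_left _ _) hw, hB2 _ _ (hr3 q hq hwq)⟩, hwq⟩)
      refine ⟨(p.1 ∪ ⋃ q ∈ L, N q.1 q.2, p.2 ∪ (fun q => (r q, n)) '' L),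
        ⟨hp.opn.union hWopen, hp.cls.union hWclosed, hp.cnt.union (hLc.image _), ?_, ?_⟩,
        ⟨subset_union_left, subset_union_left, ?_⟩, ?_, ?_⟩
      · intro y
        obtain ⟨k, hk⟩ := hp.lf y
        obtain ⟨K, hK⟩ := hfin y
        refine ⟨max k K, (hk.union (hK.image (fun q => (r q, n)))).subset ?_⟩
        rintro j ⟨hj | ⟨q, hq, rfl⟩, w, hw1, hw2⟩
        · exact Or.inl ⟨hj, w, N_anti y (le_max_left _ _) hw1, hw2⟩
        · exact Or.inr ⟨q, ⟨hq, w, N_anti y (le_max_right _ _) hw1, hB2 _ _ hw2⟩, rfl⟩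
      · rintro w (hw | hw)
        · obtain ⟨j, hj, hwj⟩ := mem_iUnion₂.1 (hp.cov hw)
          exact mem_iUnion₂.2 ⟨j, Or.inl hj, hwj⟩
        · obtain ⟨q, hq, hwq⟩ := mem_iUnion₂.1 hw
          exact mem_iUnion₂.2 ⟨(r q, n), Or.inr ⟨q, hq, rfl⟩, hr3 q hq hwq⟩
      · rintro j (hj | ⟨q, hq, rfl⟩) hjp y hy
        · exact absurd hj hjp
        · exact hdis y (N_sub (hr2 q hq) le_rfl (hB2 _ _ hy))
      · intro l' n' h z hz
        simp only [Sum.inl.injEq, Prod.mk.injEq] at h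
        obtain ⟨rfl, rfl⟩ := h
        have hzg : ∀ i < n, z i = g0 i := seg_eq.1 (hz.trans hg0.symm)
        obtain ⟨q, hq, hzq⟩ := hL4 z hzg
        refine ⟨z ⊔ q.1, ⟨fun i hi => ?_, fun i => le_max_left (z i) _⟩,
          Or.inr (mem_iUnion₂.2 ⟨q, hq, fun i hi => ?_, fun i => le_max_right (z i) _⟩)⟩
        · show max (z i) (q.1 i) = z i
          rw [hL3 q hq i hi, hzg i hi, max_self]
        · exact max_eq_right (hzq i hi)
      · intro β h
        cases h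
  · by_cases hβ : x β ∈ p.1
    · refine ⟨p, hp, hrefl, ?_, ?_⟩
      · intro l n h
        cases h
      · intro β' h
        simp only [Sum.inr.injEq] at h
        rw [← h]
        exact hβ
    · obtain ⟨n, hn⟩ := hsep _ hβ
      obtain ⟨m, hm⟩ := isOpen_op (B β n) (x β) (hB1 β n)
      refine ⟨(p.1 ∪ N (x β) m, p.2 ∪ {(β, n)}),
        ⟨hp.opn.union (isOpen_N _ _), hp.cls.union (isClosed_N _ _),
          hp.cnt.union (countable_singleton _), ?_, ?_⟩,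
        ⟨subset_union_left, subset_union_left, ?_⟩, ?_, ?_⟩
      · intro y
        obtain ⟨k, hk⟩ := hp.lf y
        refine ⟨k, (hk.union (finite_singleton (β, n))).subset ?_⟩
        rintro j ⟨hj | hj, hw⟩
        · exact Or.inl ⟨hj, hw⟩
        · exact Or.inr hj
      · rintro w (hw | hw)
        · obtain ⟨j, hj, hwj⟩ := mem_iUnion₂.1 (hp.cov hw)
          exact mem_iUnion₂.2 ⟨j, Or.inl hj, hwj⟩
        · exact mem_iUnion₂.2 ⟨(β, n), Or.inr rfl, hm hw⟩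
      · rintro j (hj | hj) hjp y hy
        · exact absurd hj hjp
        · rw [mem_singleton_iff] at hj
          subst hj
          exact hn y (hB2 _ _ hy)
      · intro l n' h
        cases h
      · intro β' h
        simp only [Sum.inr.injEq] at h
        rw [← h]
        exact Or.inr (self_mem _ _)

end


section
variable {O : Type} [LinearOrder O] [WellFoundedLT O] (g : Guess O) (x : O → T)

theorem tp_core (W : O → Set T) (h1 : ∀ t m, ∃ α, x α ∈ N t m)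
    (h3 : ∀ α β, β ≤ α → x α ∈ W β)
    (h4 : ∀ α, (∃ V J, Spec g.b α x V J) → ∃ J, Spec g.b α x (W α) J)
    (B : O → ℕ → Code) (hB1 : ∀ α n, x α ∈ op (B α n)) (hB2 : ∀ α n, op (B α n) ⊆ N (x α) n) :
    ∃ (V : Set T) (J : Set (O × ℕ)), (∀ α, x α ∈ V) ∧ (V ⊆ ⋃ j ∈ J, op (B j.1 j.2)) ∧
      ∀ y ∈ V, ∃ k, {j ∈ J | (N y k ∩ op (B j.1 j.2)).Nonempty}.Finite := by
  classical
  -- the states
  have hstep : ∀ (τ : (List ℕ × ℕ) ⊕ O) (p : {p : Set T × Set (O × ℕ) // Good B p}),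
      ∃ q : {p : Set T × Set (O × ℕ) // Good B p}, Ext B p.1 q.1 ∧ Done x τ q.1.1 := by
    intro τ p
    obtain ⟨q, hq, h⟩ := step x h1 B hB1 hB2 τ p.1 p.2
    exact ⟨⟨q, hq⟩, h⟩
  choose next hnext1 hnext2 using hstep
  have hgood0 : Good B ((∅, ∅) : Set T × Set (O × ℕ)) :=
    ⟨isOpen_empty, isClosed_empty, countable_empty, fun y => ⟨0, by simp⟩, empty_subset _⟩
  let st : List ((List ℕ × ℕ) ⊕ O) → {p : Set T × Set (O × ℕ) // Good B p} :=
    fun σ => σ.foldr next ⟨_, hgood0⟩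
  have hst : ∀ τ σ, st (τ :: σ) = next τ (st σ) := fun τ σ => rfl
  -- bounds
  let K : O → Set ((List ℕ × ℕ) ⊕ O) := fun α => range Sum.inl ∪ Sum.inr '' {β | β ≤ α}
  have hK : ∀ α, (K α).Countable := fun α => (countable_range _).union ((((g.cnt α).union
    (countable_singleton α)).mono (fun β hβ => by
      rcases (show β ≤ α from hβ).lt_or_eq with h | h
      · exact Or.inl h
      · exact Or.inr h)).image _)
  have hKmono : ∀ α β, α ≤ β → K α ⊆ K β := fun α β h => union_subset_union_right _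
    (image_mono (fun γ hγ => le_trans hγ h))
  have hbound : ∀ α, ∃ γ, ∀ σ : List ((List ℕ × ℕ) ⊕ O), (∀ τ ∈ σ, τ ∈ K α) →
      ∀ j ∈ (st σ).1.2, j.1 < γ := by
    intro α
    haveI : Countable (K α) := (hK α).to_subtype
    obtain ⟨γ, hγ⟩ := g.bdd (⋃ σ : List (K α), Prod.fst '' (st (σ.map Subtype.val)).1.2)
      (countable_iUnion fun σ => ((st _).2.cnt.image _))
    refine ⟨γ, fun σ hσ j hj => ?_⟩
    lift σ to List (K α) using hσ
    exact hγ _ (mem_iUnion.2 ⟨σ, ⟨j, hj, rfl⟩⟩)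
  choose G hG using hbound
  obtain ⟨β0, _⟩ := h1 ⊥ 0
  obtain ⟨δ, hδ0, hδG, hδb⟩ := g.guess B G β0
  -- enumeration of tasks
  let K' : Set ((List ℕ × ℕ) ⊕ O) := range Sum.inl ∪ Sum.inr '' Iio δ
  have hK' : K'.Countable := (countable_range _).union ((g.cnt δ).image _)
  obtain ⟨e, he⟩ := hK'.exists_eq_range ⟨_, Or.inl ⟨([], 0), rfl⟩⟩
  let σ : ℕ → List ((List ℕ × ℕ) ⊕ O) := fun k => Nat.rec [] (fun k l => e k :: l) k
  have hσ : ∀ k, σ (k+1) = e k :: σ k := fun k => rfl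
  have hσK : ∀ k, ∃ α, α < δ ∧ ∀ τ ∈ σ k, τ ∈ K α := by
    intro k
    induction k with
    | zero => exact ⟨β0, hδ0, by simp [σ]⟩
    | succ k ih =>
      obtain ⟨α, hα, hτ⟩ := ih
      have hek : e k ∈ K' := by rw [he]; exact mem_range_self k
      rcases hek with ⟨q, hq⟩ | ⟨β, hβ, hq⟩
      · refine ⟨α, hα, fun τ hτ' => ?_⟩
        rw [hσ] at hτ'
        rcases List.mem_cons.1 hτ' with rfl | h
        · exact Or.inl ⟨q, hq⟩
        · exact hτ τ h
      · refine ⟨max α β, max_lt hα hβ, fun τ hτ' => ?_⟩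
        rw [hσ] at hτ'
        rcases List.mem_cons.1 hτ' with rfl | h
        · exact Or.inr ⟨β, le_max_right _ _, hq⟩
        · exact hKmono _ _ (le_max_left _ _) (hτ τ h)
  let s : ℕ → {p : Set T × Set (O × ℕ) // Good B p} := fun k => st (σ k)
  have hs : ∀ k, s (k+1) = next (e k) (s k) := fun k => rfl
  have hJδ : ∀ k, ∀ j ∈ (s k).1.2, j.1 < δ := by
    intro k j hj
    obtain ⟨α, hα, hτ⟩ := hσK k
    exact (hG α (σ k) hτ j hj).trans (hδG α hα)
  have hE1 : ∀ k, Ext B (s k).1 (s (k+1)).1 := fun k => by rw [hs]; exact hnext1 _ _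
  have hE : ∀ k l, k ≤ l → Ext B (s k).1 (s l).1 := by
    intro k l hkl
    induction hkl with
    | refl => exact ⟨subset_rfl, subset_rfl, fun j hj hj' => absurd hj hj'⟩
    | @step l h ih =>
      have h2 := hE1 l
      refine ⟨ih.1.trans h2.1, ih.2.1.trans h2.2.1, fun j hj hjk y hy hyk => ?_⟩
      by_cases hjl : j ∈ (s l).1.2
      · exact ih.2.2 j hjl hjk y hy hyk
      · exact h2.2.2 j hj hjl y hy (ih.1 hyk)
  have hdone : ∀ τ ∈ K', ∃ k, Done x τ (s k).1.1 := by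
    intro τ hτ
    rw [he] at hτ
    obtain ⟨k, rfl⟩ := hτ
    exact ⟨k+1, by rw [hs]; exact hnext2 _ _⟩
  have hspec : Spec g.b δ x (⋃ k, (s k).1.1) (⋃ k, (s k).1.2) := by
    refine ⟨?_, ?_, isOpen_iUnion fun k => (s k).2.opn, ?_, ?_, ?_⟩
    · intro j hj
      obtain ⟨k, hk⟩ := mem_iUnion.1 hj
      exact hJδ k j hk
    · intro β hβ
      obtain ⟨k, hk⟩ := hdone (Sum.inr β) (Or.inr ⟨β, hβ, rfl⟩)
      exact mem_iUnion.2 ⟨k, hk.2 β rfl⟩
    · intro z n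
      obtain ⟨k, hk⟩ := hdone (Sum.inl (seg z n, n)) (Or.inl ⟨_, rfl⟩)
      obtain ⟨w, hw, hwk⟩ := hk.1 _ _ rfl z rfl
      exact ⟨w, hw, mem_iUnion.2 ⟨k, hwk⟩⟩
    · intro y hy
      obtain ⟨k, hk⟩ := mem_iUnion.1 hy
      obtain ⟨j, hj, hyj⟩ := mem_iUnion₂.1 ((s k).2.cov hk)
      exact mem_iUnion₂.2 ⟨j, mem_iUnion.2 ⟨k, hj⟩, by rw [hδb j.1 (hJδ k j hj)]; exact hyj⟩
    · intro y hy
      obtain ⟨k, hk⟩ := mem_iUnion.1 hy
      obtain ⟨m, hm⟩ := (s k).2.opn y hk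
      obtain ⟨m', hm'⟩ := (s k).2.lf y
      refine ⟨max m m', hm'.subset ?_⟩
      rintro j ⟨hj, w, hw1, hw2⟩
      obtain ⟨l, hl⟩ := mem_iUnion.1 hj
      rw [hδb j.1 (hJδ l j hl)] at hw2
      by_cases hjk : j ∈ (s k).1.2
      · exact ⟨hjk, w, N_anti y (le_max_right _ _) hw1, hw2⟩
      · exfalso
        have hjl : j ∈ (s (max k l)).1.2 := (hE l _ (le_max_right _ _)).2.1 hl
        exact (hE k _ (le_max_left k l)).2.2 j hjl hjk w hw2 (hm (N_anti y (le_max_left _ _) hw1))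
  obtain ⟨J, hJ⟩ := h4 δ ⟨_, _, hspec⟩
  refine ⟨W δ, J, fun α => ?_, ?_, ?_⟩
  · rcases lt_or_ge α δ with h | h
    · exact hJ.2.1 α h
    · exact h3 α δ h
  · intro y hy
    obtain ⟨j, hj, hyj⟩ := mem_iUnion₂.1 (hJ.2.2.2.2.1 hy)
    exact mem_iUnion₂.2 ⟨j, hj, by rw [← hδb j.1 (hJ.1 j hj)]; exact hyj⟩
  · intro y hy
    obtain ⟨k, hk⟩ := hJ.2.2.2.2.2 y hy
    refine ⟨k, hk.subset ?_⟩
    rintro j ⟨hj, hjk⟩
    exact ⟨hj, by rw [hδb j.1 (hJ.1 j hj)]; exact hjk⟩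


include g in
theorem space : ∃ (X : Type) (_ : TopologicalSpace X), T3Space X ∧ LindelofSpace X ∧
    (∀ B : Set (Set X), TopologicalSpace.IsTopologicalBasis B →
      ∃ C : Set (Set X), C ⊆ B ∧ LocallyFinite (fun s : C => (s : Set X)) ∧ ⋃₀ C = univ) ∧
    ∃ U : ℕ → Set (Set X), (∀ n, ∀ s ∈ U n, IsOpen s) ∧ (∀ n, ⋃₀ U n = univ) ∧
      ∀ A : ℕ → Set (Set X), (∀ n, A n ⊆ U n ∧ (A n).Finite) → (⋃ n, ⋃₀ A n) ≠ univ := by
  classical
  obtain ⟨x, W, c1, c2, c3, c4⟩ := construct g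
  have h1 : ∀ t m, ∃ α, x α ∈ N t m := hits g x c1
  have hl : ∀ G : Set T, IsOpen G → Dn G → ∃ γ, ∀ α, γ < α → x α ∈ G := luzin g x c2
  let X : Type := {t : T // t ∈ range x}
  let p : O → X := fun α => ⟨x α, mem_range_self α⟩
  have hp : ∀ z : X, ∃ α, p α = z := by
    rintro ⟨z, α, rfl⟩
    exact ⟨α, rfl⟩
  -- open sets of X
  have hopen : ∀ s : Set X, IsOpen s → ∃ G : Set T, IsOpen G ∧ ∀ z : X, z ∈ s ↔ z.1 ∈ G := by
    intro s hs
    obtain ⟨G, hG, rfl⟩ := isOpen_induced_iff.1 hs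
    exact ⟨G, hG, fun z => Iff.rfl⟩
  have hNX : ∀ (t : T) (n : ℕ), IsOpen {z : X | z.1 ∈ N t n} := fun t n =>
    isOpen_induced_iff.2 ⟨N t n, isOpen_N t n, rfl⟩
  refine ⟨X, inferInstance, inferInstance, ?_, ?_, ?_⟩
  · -- Lindelöf
    refine ⟨isLindelof_of_countable_subcover fun {ι} U hUo hU => ?_⟩
    choose G hG hGU using fun i => hopen (U i) (hUo i)
    obtain ⟨J, hJ, hJ2⟩ := hered g x hl G hG
    refine ⟨J, hJ, fun z _ => ?_⟩
    obtain ⟨α, rfl⟩ := hp z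
    obtain ⟨i, hi⟩ := mem_iUnion.1 (hU (mem_univ (p α)))
    obtain ⟨j, hj, hxj⟩ := hJ2 α ⟨i, (hGU i _).1 hi⟩
    exact mem_iUnion₂.2 ⟨j, hj, (hGU j _).2 hxj⟩
  · -- totally paracompact
    intro 𝔅 h𝔅
    have hB : ∀ α n, ∃ c : Code, x α ∈ op c ∧ op c ⊆ N (x α) n ∧ {z : X | z.1 ∈ op c} ∈ 𝔅 := by
      intro α n
      obtain ⟨V, hV, hpV, hVN⟩ := h𝔅.exists_subset_of_mem_open
        (show p α ∈ {z : X | z.1 ∈ N (x α) n} from self_mem _ _) (hNX (x α) n)
      obtain ⟨G, hG, hGV⟩ := hopen V (h𝔅.isOpen hV)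
      obtain ⟨J, hJ, hJ2⟩ := hered g x hl
        (fun q : {q : T × ℕ // N q.1 q.2 ⊆ G ∩ N (x α) n} => N q.1.1 q.1.2)
        (fun q => isOpen_N _ _)
      have key : ∀ β, p β ∈ V → ∃ q ∈ J, x β ∈ N q.1.1 q.1.2 := by
        intro β hβ
        obtain ⟨k, hk⟩ := (hG.inter (isOpen_N (x α) n)) (x β) ⟨(hGV _).1 hβ, hVN hβ⟩
        exact hJ2 β ⟨⟨(x β, k), hk⟩, self_mem _ _⟩
      obtain ⟨f, hf⟩ := hJ.exists_eq_range (by
        obtain ⟨q, hq, _⟩ := key α hpV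
        exact ⟨q, hq⟩)
      have hsub : op (fun k => (f k).1) ⊆ G ∩ N (x α) n := iUnion_subset fun k => (f k).2
      have hmem : ∀ β, p β ∈ V → x β ∈ op (fun k => (f k).1) := by
        intro β hβ
        obtain ⟨q, hq, hx⟩ := key β hβ
        rw [hf] at hq
        obtain ⟨k, rfl⟩ := hq
        exact mem_iUnion.2 ⟨k, hx⟩
      refine ⟨fun k => (f k).1, hmem α hpV, fun y hy => (hsub hy).2, ?_⟩
      have : {z : X | z.1 ∈ op (fun k => (f k).1)} = V := by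
        ext z
        obtain ⟨β, rfl⟩ := hp z
        exact ⟨fun h => (hGV _).2 (hsub h).1, fun h => hmem β h⟩
      rw [this]
      exact hV
    choose B hB1 hB2 hB3 using hB
    obtain ⟨V, J, k1, k2, k3⟩ := tp_core g x W h1 c3 c4 B hB1 hB2
    refine ⟨(fun j : O × ℕ => {z : X | z.1 ∈ op (B j.1 j.2)}) '' J, ?_, ?_, ?_⟩
    · rintro _ ⟨j, _, rfl⟩
      exact hB3 _ _
    · intro z
      obtain ⟨α, rfl⟩ := hp z
      obtain ⟨k, hk⟩ := k3 (x α) (k1 α)
      refine ⟨{z : X | z.1 ∈ N (x α) k}, (hNX _ _).mem_nhds (self_mem _ _), ?_⟩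
      have hfin := hk.image (fun j : O × ℕ => {z : X | z.1 ∈ op (B j.1 j.2)})
      refine Finite.of_injOn (f := Subtype.val) (t := (fun j : O × ℕ =>
        {z : X | z.1 ∈ op (B j.1 j.2)}) '' {j ∈ J | (N (x α) k ∩ op (B j.1 j.2)).Nonempty})
        ?_ Subtype.val_injective.injOn hfin
      rintro ⟨_, j, hj, rfl⟩ ⟨w, hw1, hw2⟩
      exact ⟨j, ⟨hj, w.1, hw2, hw1⟩, rfl⟩
    · refine eq_univ_of_forall fun z => ?_
      obtain ⟨α, rfl⟩ := hp z
      obtain ⟨j, hj, hx⟩ := mem_iUnion₂.1 (k2 (k1 α))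
      exact ⟨_, ⟨j, hj, rfl⟩, hx⟩
  · -- not Menger
    refine ⟨fun n => range (fun k : ℕ => {z : X | z.1 n = k}), ?_, ?_, ?_⟩
    · rintro n _ ⟨k, rfl⟩
      refine isOpen_induced_iff.2 ⟨{t : T | t n = k}, fun t ht => ⟨n+1, fun w hw => ?_⟩, rfl⟩
      show w n = k
      rw [hw.1 n (Nat.lt_succ_self n)]
      exact ht
    · intro n
      exact eq_univ_of_forall fun z => ⟨_, ⟨z.1 n, rfl⟩, rfl⟩
    · intro A hA hcov
      have hb : ∀ n, ∃ m : ℕ, ∀ z : X, z ∈ ⋃₀ A n → z.1 n < m := by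
        intro n
        have hfin : {k : ℕ | {z : X | z.1 n = k} ∈ A n ∧ ∃ z : X, z.1 n = k}.Finite := by
          refine Finite.of_injOn (f := fun k : ℕ => {z : X | z.1 n = k}) (t := A n)
            (fun k hk => hk.1) ?_ (hA n).2
          rintro k ⟨_, z, hz⟩ k' _ h
          have : z ∈ {z : X | z.1 n = k'} := by
            rw [← show {z : X | z.1 n = k} = {z : X | z.1 n = k'} from h]
            exact hz
          exact hz.symm.trans this
        obtain ⟨m, hm⟩ := hfin.bddAbove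
        refine ⟨m+1, ?_⟩
        rintro z ⟨s, hs, hzs⟩
        obtain ⟨k, rfl⟩ := (hA n).1 hs
        have hzk : z.1 n = k := hzs
        rw [hzk]
        exact Nat.lt_succ_of_le (hm ⟨hs, z, hzk⟩)
      choose m hm using hb
      let t : T := ⟨fun i => ∑ l ∈ Finset.range (i+1), m l, fun i j hij =>
        Finset.sum_le_sum_of_subset (Finset.range_mono (by omega))⟩
      obtain ⟨α, hα⟩ := h1 t 0
      have : p α ∈ ⋃ n, ⋃₀ A n := by rw [hcov]; exact mem_univ _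
      obtain ⟨n, hn⟩ := mem_iUnion.1 this
      have h5 : x α n < m n := hm n _ hn
      have h6 : t n ≤ x α n := hα.2 n
      have h7 : m n ≤ t n := Finset.single_le_sum (f := m) (fun _ _ => Nat.zero_le _)
        (Finset.mem_range.2 (Nat.lt_succ_self n))
      omega

end

end Pool.Agent.TotPar
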